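import Mathlib
import Pool.Agent.H40.RectAux

/-!
# A circle is not good for the 4 x 2 rectangular table

We disprove the statement that every convex Jordan curve is good for all rectangular tables.
The curve is the circle of radius 3 about the origin, the table has side lengths 4 and 2.
-/

open Set Complex Pool.Agent.H40.RectAux

namespace Pool.Agent.Results.MP_c2c9d7_co.RectTables

/-- The Euclidean plane. -/
abbrev Plane := EuclideanSpace ℝ (Fin 2)

/-- A convex Jordan curve: the boundary of a compact convex set with nonempty interior. -/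
def IsConvexJordanCurve (J : Set Plane) : Prop :=
  ∃ K : Set Plane, IsCompact K ∧ Convex ℝ K ∧ (interior K).Nonempty ∧ J = frontier K

/-- The points inside `J`: those of the complement of `J` whose component there is bounded. -/
def inside (J : Set Plane) : Set Plane :=
  {x | x ∉ J ∧ Bornology.IsBounded (connectedComponentIn Jᶜ x)}

/-- The points outside `J`: those of the complement of `J` whose component there is unbounded. -/
def outside (J : Set Plane) : Set Plane :=
  {x | x ∉ J ∧ ¬ Bornology.IsBounded (connectedComponentIn Jᶜ x)}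

/-- `f` is continuous, non-negative, and zero at every point outside `J`. -/
def InFPlus (J : Set Plane) (f : Plane → ℝ) : Prop :=
  Continuous f ∧ (∀ x, 0 ≤ f x) ∧ ∀ x ∈ outside J, f x = 0

/-- The vertices of the rectangle with side lengths `a` and `b` centred at the origin. -/
def tableVertices (a b : ℝ) : Set Plane :=
  {!₂[a / 2, b / 2], !₂[-(a / 2), b / 2], !₂[-(a / 2), -(b / 2)], !₂[a / 2, -(b / 2)]}

/-- `J` is good for the `a` by `b` rectangular table: for every `f` in `F_J^+` some level set of `f`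
contains the four vertices of a congruent copy of the rectangle whose centre lies inside `J`. -/
def GoodFor (J : Set Plane) (a b : ℝ) : Prop :=
  ∀ f : Plane → ℝ, InFPlus J f →
    ∃ (g : Plane ≃ᵢ Plane) (lam : ℝ), g 0 ∈ inside J ∧ ∀ v ∈ tableVertices a b, f (g v) = lam

/-! ### Transfer to the Euclidean plane -/

/-- The isometry from the plane onto the complex numbers. -/
noncomputable def toC : Plane ≃ₗᵢ[ℝ] ℂ := Complex.orthonormalBasisOneI.repr.symm

lemma toC_apply (x y : ℝ) : toC !₂[x, y] = x + y * I := by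
  unfold toC
  rw [← Complex.orthonormalBasisOneI.sum_repr_symm]
  simp [Fin.sum_univ_two]

lemma inside_sphere {x : Plane} (hx : x ∈ inside (Metric.sphere (0 : Plane) 3)) : ‖x‖ < 3 := by
  obtain ⟨h1, h2⟩ := hx
  by_contra h
  rw [not_lt] at h
  have hgt : 3 < ‖x‖ := lt_of_le_of_ne h (fun h' => h1 (by simpa using h'.symm))
  have hxne : ‖x‖ ≠ 0 := by linarith
  have hpre : IsPreconnected ((fun s : ℝ => s • x) '' Set.Ici 1) :=
    (isPreconnected_Ici).image _ (by fun_prop)
  have hmem : x ∈ (fun s : ℝ => s • x) '' Set.Ici 1 := ⟨1, by simp, by simp⟩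
  have hsub : (fun s : ℝ => s • x) '' Set.Ici 1 ⊆ (Metric.sphere (0 : Plane) 3)ᶜ := by
    rintro _ ⟨s, hs, rfl⟩
    have hs1 : (1 : ℝ) ≤ s := hs
    simp only [Set.mem_compl_iff, Metric.mem_sphere, dist_zero_right, norm_smul,
      Real.norm_of_nonneg (by linarith : (0 : ℝ) ≤ s)]
    intro h'
    nlinarith
  have hb := h2.subset (hpre.subset_connectedComponentIn hmem hsub)
  obtain ⟨R, hR⟩ := hb.exists_norm_le
  have h0 : (0 : ℝ) ≤ R := (norm_nonneg x).trans (hR x hmem)
  have := hR ((R + 1) • x) ⟨R + 1, by simp [h0], rfl⟩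
  rw [norm_smul, Real.norm_of_nonneg (by linarith)] at this
  nlinarith

lemma outside_sphere {x : Plane} (hx : x ∈ outside (Metric.sphere (0 : Plane) 3)) : 3 ≤ ‖x‖ := by
  obtain ⟨h1, h2⟩ := hx
  by_contra h
  rw [not_le] at h
  apply h2
  refine (Metric.isBounded_ball (x := (0 : Plane)) (r := 3)).subset ?_
  intro y hy
  rw [mem_ball_zero_iff]
  by_contra hy3
  rw [not_lt] at hy3
  have hpre : IsPreconnected (connectedComponentIn (Metric.sphere (0 : Plane) 3)ᶜ x) :=
    isPreconnected_connectedComponentIn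
  have hxm : x ∈ connectedComponentIn (Metric.sphere (0 : Plane) 3)ᶜ x :=
    mem_connectedComponentIn h1
  have := hpre.intermediate_value hxm hy (f := fun z => ‖z‖) (by fun_prop) ⟨h.le, hy3⟩
  obtain ⟨z, hz, hz3⟩ := this
  exact (connectedComponentIn_subset _ _ hz) (by simpa using hz3)

/-- Every isometry of the plane carries the vertices of the table to `c ± (2+i)e, c ± (2-i)e`. -/
lemma iso_form (g : Plane ≃ᵢ Plane) : ∃ c e : ℂ, normSq e = 1 ∧ toC (g 0) = c ∧
    ∀ w ∈ ({c + (2 + I) * e, c - (2 + I) * e, c + (2 - I) * e, c - (2 - I) * e} : Set ℂ),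
      ∃ v ∈ tableVertices 4 2, toC (g v) = w := by
  -- the conjugated isometry, normalised at the origin
  let h : ℂ ≃ᵢ ℂ := (toC.symm.toIsometryEquiv.trans g).trans toC.toIsometryEquiv
  let h0 : ℂ ≃ᵢ ℂ := h.trans (IsometryEquiv.subRight (h 0))
  have h00 : h0 0 = 0 := by simp [h0]
  obtain ⟨a, ha⟩ := linear_isometry_complex (h0.toRealLinearIsometryEquivOfMapZero h00)
  have happ : ∀ z, h0 z = h0.toRealLinearIsometryEquivOfMapZero h00 z := fun z => rfl
  have hg : ∀ v : Plane, toC (g v) = toC (g 0) + h0 (toC v) := by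
    intro v
    simp [h0, h]
  have ha1 : normSq (a : ℂ) = 1 := by
    rw [Complex.normSq_eq_norm_sq, Circle.norm_coe]; norm_num
  have hv1 : toC !₂[(4 : ℝ) / 2, 2 / 2] = 2 + I := by rw [toC_apply]; push_cast; ring
  have hv2 : toC !₂[-((4 : ℝ) / 2), 2 / 2] = -(2 - I) := by rw [toC_apply]; push_cast; ring
  have hv3 : toC !₂[-((4 : ℝ) / 2), -(2 / 2)] = -(2 + I) := by rw [toC_apply]; push_cast; ring
  have hv4 : toC !₂[(4 : ℝ) / 2, -(2 / 2)] = 2 - I := by rw [toC_apply]; push_cast; ring
  refine ⟨toC (g 0), a, ha1, rfl, ?_⟩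
  rcases ha with ha | ha
  · have hform : ∀ z, h0 z = a * z := fun z => by rw [happ, ha]; simp
    intro w hw
    simp only [Set.mem_insert_iff, Set.mem_singleton_iff] at hw
    rcases hw with rfl | rfl | rfl | rfl
    · exact ⟨!₂[(4 : ℝ) / 2, 2 / 2], by simp [tableVertices], by rw [hg, hform, hv1]; ring⟩
    · exact ⟨!₂[-((4 : ℝ) / 2), -(2 / 2)], by simp [tableVertices], by rw [hg, hform, hv3]; ring⟩
    · exact ⟨!₂[(4 : ℝ) / 2, -(2 / 2)], by simp [tableVertices], by rw [hg, hform, hv4]; ring⟩
    · exact ⟨!₂[-((4 : ℝ) / 2), 2 / 2], by simp [tableVertices], by rw [hg, hform, hv2]; ring⟩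
  · have hform : ∀ z, h0 z = a * (starRingEnd ℂ) z := fun z => by rw [happ, ha]; simp
    intro w hw
    simp only [Set.mem_insert_iff, Set.mem_singleton_iff] at hw
    have k1 : (starRingEnd ℂ) (2 + I) = 2 - I := by
      rw [map_add, Complex.conj_I, map_ofNat]; ring
    have k2 : (starRingEnd ℂ) (2 - I) = 2 + I := by
      rw [map_sub, Complex.conj_I, map_ofNat]; ring
    rcases hw with rfl | rfl | rfl | rfl
    · exact ⟨!₂[(4 : ℝ) / 2, -(2 / 2)], by simp [tableVertices], by
        rw [hg, hform, hv4, k2]; ring⟩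
    · exact ⟨!₂[-((4 : ℝ) / 2), 2 / 2], by simp [tableVertices], by
        rw [hg, hform, hv2, map_neg, k2]; ring⟩
    · exact ⟨!₂[(4 : ℝ) / 2, 2 / 2], by simp [tableVertices], by
        rw [hg, hform, hv1, k1]; ring⟩
    · exact ⟨!₂[-((4 : ℝ) / 2), -(2 / 2)], by simp [tableVertices], by
        rw [hg, hform, hv3, map_neg, k1]; ring⟩

/-- The circle of radius 3 is not good for the 4 by 2 table. -/
theorem circle_not_good : ¬ GoodFor (Metric.sphere (0 : Plane) 3) 4 2 := by
  intro hgood
  obtain ⟨F, hFc, hF0, hF3, hF⟩ := main_complex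
  have hmem : InFPlus (Metric.sphere (0 : Plane) 3) (fun x => F (toC x)) := by
    refine ⟨hFc.comp toC.continuous, fun x => hF0 _, fun x hx => hF3 _ ?_⟩
    rw [LinearIsometryEquiv.norm_map]
    exact outside_sphere hx
  obtain ⟨g, lam, hg0, hg⟩ := hgood _ hmem
  obtain ⟨c, e, he, hc, hw⟩ := iso_form g
  have hc3 : ‖c‖ < 3 := by
    rw [← hc, LinearIsometryEquiv.norm_map]
    exact inside_sphere hg0
  have hval : ∀ w ∈ ({c + (2 + I) * e, c - (2 + I) * e, c + (2 - I) * e, c - (2 - I) * e} : Set ℂ),
      F w = lam := by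
    intro w hw'
    obtain ⟨v, hv, hvw⟩ := hw w hw'
    rw [← hvw]
    exact hg v hv
  exact hF c e he hc3 lam (hval _ (by simp)) (hval _ (by simp)) (hval _ (by simp))
    (hval _ (by simp))

/-- **Negative answer to the question.** The circle of radius 3 about the origin is a convex Jordan
curve, and it is not good for the rectangular table with side lengths 4 and 2. -/
theorem result : IsConvexJordanCurve (Metric.sphere (0 : Plane) 3) ∧
    ¬ GoodFor (Metric.sphere (0 : Plane) 3) 4 2 := by
  refine ⟨?_, circle_not_good⟩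
  refine ⟨Metric.closedBall 0 3, isCompact_closedBall _ _, convex_closedBall _ _, ?_, ?_⟩
  · rw [interior_closedBall _ (by norm_num)]
    exact ⟨0, by simp⟩
  · rw [frontier_closedBall _ (by norm_num)]

/-- In particular it is not true that every convex Jordan curve is good for all rectangular
tables. -/
theorem not_all_good : ¬ ∀ J : Set Plane, IsConvexJordanCurve J →
    ∀ a b : ℝ, 0 < a → 0 < b → GoodFor J a b := fun h =>
  result.2 (h _ result.1 4 2 (by norm_num) (by norm_num))

end Pool.Agent.Results.MP_c2c9d7_co.RectTables
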